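import Pool.Agent.Work.MP_cf06ef_an.B20

set_option autoImplicit false
open Filter Topology

namespace Pool.Agent.Results.MP_cf06ef_an.Full

/-- Every substitution subshift over a finite alphabet is Moebius disjoint. -/
theorem result (A : Type) [Fintype A] [TopologicalSpace A] [DiscreteTopology A]
    (σ : A → List A) (hσ : ∀ a, σ a ≠ []) (X : Set (ℤ → A))
    (hX : X = {x : ℤ → A | ∀ (i : ℤ) (m : ℕ), ∃ (a : A) (n : ℕ),
      List.IsInfix (List.ofFn (fun j : Fin m => x (i + ((j : ℕ) : ℤ))))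
        (Nat.iterate (fun w : List A => w.flatMap σ) n [a])})
    (S : X → X) (hS : ∀ (x : X) (i : ℤ), (S x).1 i = x.1 (i + 1))
    (f : X → ℂ) (hf : Continuous f) (x : X) :
    Tendsto (fun N : ℕ => (1 / (N : ℂ)) * ∑ n ∈ Finset.Icc 1 N,
      f (S^[n] x) * ((ArithmeticFunction.moebius n : ℤ) : ℂ)) atTop (𝓝 0) :=
  Pool.Agent.SB.general A σ hσ X hX S hS f hf x

end Pool.Agent.Results.MP_cf06ef_an.Full
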